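import Pool.Agent.J6H54.CH.Stm2

/-!
# Module CH-34 of project CH of helper54: the affine model of the ascending HNN extension
-/

set_option autoImplicit false

namespace Pool.Agent.J6H74.CH34

open Pool.Agent.J6H54.CH

/-! ## Products of powers of commuting elements -/

section PX

variable {G : Type} [Group G]

/-- the product of the powers `X j ^ a j` -/
def PX {n : ℕ} (X : Fin n → G) (a : Fin n → ℤ) : G := (List.ofFn fun j => X j ^ a j).prod

theorem PX_zero {n : ℕ} (X : Fin n → G) : PX X 0 = 1 := by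
  unfold PX
  apply List.prod_eq_one
  intro x hx
  rw [List.mem_ofFn] at hx
  obtain ⟨i, rfl⟩ := hx
  simp

theorem PX_add {n : ℕ} (X : Fin n → G) (hX : ∀ i j, Commute (X i) (X j)) (a b : Fin n → ℤ) :
    PX X (a + b) = PX X a * PX X b := by
  induction n with
  | zero => simp [PX]
  | succ n ih =>
    have h := ih (fun j => X j.succ) (fun i j => hX _ _) (fun j => a j.succ) (fun j => b j.succ)
    have h0 : ∀ c : Fin (n + 1) → ℤ, PX X c = X 0 ^ c 0 * PX (fun j => X j.succ)
        (fun j => c j.succ) := by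
      intro c
      unfold PX
      rw [List.ofFn_succ, List.prod_cons]
    have hc : Commute (PX (fun j => X j.succ) (fun j => a j.succ)) (X 0 ^ b 0) := by
      unfold PX
      apply Commute.symm
      apply Commute.list_prod_right
      intro y hy
      rw [List.mem_ofFn] at hy
      obtain ⟨i, rfl⟩ := hy
      exact (hX 0 i.succ).zpow_zpow _ _
    rw [h0, h0, h0]
    have h1 : PX (fun j => X j.succ) (fun j => (a + b) j.succ) =
        PX (fun j => X j.succ) ((fun j => a j.succ) + fun j => b j.succ) := rfl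
    rw [h1, h, Pi.add_apply, zpow_add]
    calc X 0 ^ a 0 * X 0 ^ b 0 * (PX (fun j => X j.succ) (fun j => a j.succ) *
          PX (fun j => X j.succ) fun j => b j.succ)
        = X 0 ^ a 0 * (X 0 ^ b 0 * PX (fun j => X j.succ) (fun j => a j.succ)) *
          PX (fun j => X j.succ) (fun j => b j.succ) := by group
      _ = X 0 ^ a 0 * (PX (fun j => X j.succ) (fun j => a j.succ) * X 0 ^ b 0) *
          PX (fun j => X j.succ) (fun j => b j.succ) := by rw [hc.eq]
      _ = _ := by group

theorem PX_single {n : ℕ} (X : Fin n → G) (i : Fin n) : PX X (Pi.single i 1) = X i := by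
  induction n with
  | zero => exact i.elim0
  | succ n ih =>
    unfold PX
    rw [List.ofFn_succ, List.prod_cons]
    refine Fin.cases ?_ (fun i => ?_) i
    · have h1 : (List.ofFn fun j : Fin n => X j.succ ^ (Pi.single (0 : Fin (n + 1)) (1 : ℤ) :
          Fin (n + 1) → ℤ) j.succ).prod = 1 := by
        apply List.prod_eq_one
        intro x hx
        rw [List.mem_ofFn] at hx
        obtain ⟨j, rfl⟩ := hx
        rw [Pi.single_eq_of_ne (Fin.succ_ne_zero j), zpow_zero]
      rw [h1]
      simp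
    · have h1 := ih (fun j => X j.succ) i
      unfold PX at h1
      have h2 : (fun j : Fin n => X j.succ ^ (Pi.single i.succ (1 : ℤ) : Fin (n + 1) → ℤ) j.succ) =
          fun j => X j.succ ^ (Pi.single i (1 : ℤ) : Fin n → ℤ) j := by
        funext j
        congr 1
        by_cases h : j = i
        · subst h; simp
        · rw [Pi.single_eq_of_ne h, Pi.single_eq_of_ne (fun h' => h (Fin.succ_injective _ h'))]
      rw [h2, h1, Pi.single_eq_of_ne (Fin.succ_ne_zero i).symm, zpow_zero, one_mul]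

/-- as a homomorphism -/
def PXh {n : ℕ} (X : Fin n → G) (hX : ∀ i j, Commute (X i) (X j)) :
    Multiplicative (Fin n → ℤ) →* G where
  toFun a := PX X (Multiplicative.toAdd a)
  map_one' := PX_zero X
  map_mul' a b := PX_add X hX _ _

theorem map_PX {n : ℕ} {H : Type} [Group H] (φ : G →* H) (X : Fin n → G) (a : Fin n → ℤ) :
    φ (PX X a) = PX (fun j => φ (X j)) a := by
  unfold PX
  rw [map_list_prod, List.map_ofFn]
  congr 2
  funext j
  exact map_zpow φ _ _

theorem PX_hom {n : ℕ} {A : Type} [AddCommGroup A] (φ : Multiplicative A →* G) (c : Fin n → A)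
    (a : Fin n → ℤ) : PX (fun j => φ (Multiplicative.ofAdd (c j))) a =
      φ (Multiplicative.ofAdd (∑ j, a j • c j)) := by
  have h := map_PX φ (fun j => Multiplicative.ofAdd (c j)) a
  rw [← h]
  congr 1
  unfold PX
  rw [List.prod_ofFn, ofAdd_sum]
  rfl

end PX

/-! ## The affine group -/

/-- the points as elements of a group -/
def AG {Λ : Type} [AddCommGroup Λ] (_ : Λ ≃ₗ[ℤ] Λ) : Type := Λ × ℤ

section AG

variable {Λ : Type} [AddCommGroup Λ] {σ : Λ ≃ₗ[ℤ] Λ}

instance : Mul (AG σ) := ⟨fun a b => mul σ a b⟩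
instance : One (AG σ) := ⟨((0, 0) : Λ × ℤ)⟩
instance : Inv (AG σ) := ⟨fun a => inv σ a⟩

theorem mul_def (a b : AG σ) : a * b = mul σ a b := rfl
theorem one_def : (1 : AG σ) = ((0, 0) : Λ × ℤ) := rfl
theorem inv_def (a : AG σ) : a⁻¹ = inv σ a := rfl

instance : Group (AG σ) :=
  Group.ofLeftAxioms (fun a b c => mul_assoc' a b c) (fun a => one_mul' a) (fun a => inv_mul' a)

/-- translations -/
def tr (σ : Λ ≃ₗ[ℤ] Λ) : Multiplicative Λ →* AG σ where
  toFun x := ((Multiplicative.toAdd x, 0) : Λ × ℤ)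
  map_one' := rfl
  map_mul' x y := by
    rw [mul_def]
    apply Prod.ext
    · simp [mul]
    · simp [mul]

/-- the vertical generator -/
def gt (σ : Λ ≃ₗ[ℤ] Λ) : AG σ := ((0, 1) : Λ × ℤ)

theorem gt_zpow (z : ℤ) : gt σ ^ z = ((0, z) : Λ × ℤ) := by
  induction z using Int.induction_on with
  | zero => rw [zpow_zero, one_def]
  | succ n ih =>
    rw [zpow_add_one, ih]
    apply Prod.ext
    · show (0 : Λ) + (σ ^ (n : ℤ)) 0 = _
      simp
    · rfl
  | pred n ih =>
    rw [zpow_sub_one, ih]
    apply Prod.ext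
    · show (0 : Λ) + (σ ^ (-(n : ℤ))) (-((σ ^ (-(1 : ℤ))) 0)) = _
      simp
    · show -(n : ℤ) + -1 = _
      ring

end AG

/-! ## The model -/

section model

variable {n : ℕ} (B : Matrix (Fin n) (Fin n) ℤ) (hB : B.det ≠ 0)

/-- integral vectors in `Λ` -/
def vec : (Fin n → ℤ) →+ Lam B where
  toFun a := ⟨fun i => (a i : ℚ), ⟨0, fun i => ⟨a i, by simp⟩⟩⟩
  map_zero' := by
    apply Subtype.ext
    funext i
    simp
  map_add' a b := by
    apply Subtype.ext
    funext i
    simp

theorem vec_inj : Function.Injective (vec B) := by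
  intro a b h
  funext i
  have h1 := congrFun (congrArg Subtype.val h) i
  exact Int.cast_injective h1

theorem sig_vec (a : Fin n → ℤ) : sig B hB (vec B a) = vec B (B.mulVec a) := by
  apply Subtype.ext
  funext i
  change (rat B).mulVec (fun j => (a j : ℚ)) i = ((B.mulVec a i : ℤ) : ℚ)
  simp only [Matrix.mulVec, dotProduct, rat, Matrix.map_apply, Int.coe_castRingHom]
  push_cast
  rfl

theorem sig_pow (d : ℕ) (x : Lam B) : (((sig B hB) ^ (d : ℤ)) x).1 = (rat B ^ d).mulVec x.1 := by
  induction d with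
  | zero => simp
  | succ d ih =>
    have e : ((sig B hB) ^ ((d + 1 : ℕ) : ℤ)) x = (sig B hB) (((sig B hB) ^ (d : ℤ)) x) := by
      have : ((d + 1 : ℕ) : ℤ) = 1 + (d : ℤ) := by push_cast; ring
      rw [this, pow_add_apply]; simp
    rw [e, pow_succ', ← Matrix.mulVec_mulVec, ← ih]
    rfl

theorem tr_vec_single (a : Fin n → ℤ) :
    PX (fun j => tr (sig B hB) (Multiplicative.ofAdd (vec B (Pi.single j 1)))) a =
      tr (sig B hB) (Multiplicative.ofAdd (vec B a)) := by
  rw [PX_hom]
  congr 2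
  have h1 : ∀ j, a j • vec B (Pi.single j 1) = vec B (Pi.single j (a j)) := by
    intro j
    rw [← map_zsmul]
    congr 1
    rw [← Pi.single_smul]
    simp
  rw [Finset.sum_congr rfl fun j _ => h1 j, ← map_sum, Finset.univ_sum_single]

/-- the images of the generators -/
noncomputable def gx : Option (Fin n) → AG (sig B hB)
  | none => gt (sig B hB)
  | some i => tr (sig B hB) (Multiplicative.ofAdd (vec B (Pi.single i 1)))

theorem conj_tr {Λ : Type} [AddCommGroup Λ] (σ : Λ ≃ₗ[ℤ] Λ) (x : Λ) :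
    gt σ * tr σ (Multiplicative.ofAdd x) * (gt σ)⁻¹ = tr σ (Multiplicative.ofAdd (σ x)) := by
  rw [mul_inv_eq_iff_eq_mul]
  apply Prod.ext
  · show (0 : Λ) + (σ ^ (1 : ℤ)) x = σ x + (σ ^ (0 : ℤ)) 0
    simp
  · rfl

theorem mulVec_single (i : Fin n) : B.mulVec (Pi.single i 1) = fun j => B j i := by
  funext j
  simp

theorem rel_ok : ∀ r ∈ hnnRel B, FreeGroup.lift (gx B hB) r = 1 := by
  rintro r (⟨i, j, rfl⟩ | ⟨i, rfl⟩)
  · simp only [map_mul, map_inv, FreeGroup.lift_apply_of, gx]
    rw [mul_inv_eq_one, mul_inv_eq_iff_eq_mul]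
    exact ((Commute.all (Multiplicative.ofAdd (vec B (Pi.single i 1)))
      (Multiplicative.ofAdd (vec B (Pi.single j 1)))).map (tr (sig B hB))).eq
  · have h1 : FreeGroup.lift (gx B hB) (List.ofFn fun j => FreeGroup.of (some j) ^ B j i).prod =
        PX (fun j => gx B hB (some j)) (fun j => B j i) := by
      have h2 := map_PX (FreeGroup.lift (gx B hB)) (fun j => FreeGroup.of (some j))
        (fun j => B j i)
      simp only [FreeGroup.lift_apply_of] at h2
      exact h2
    rw [map_mul, map_inv, h1, map_mul, map_mul, map_inv, FreeGroup.lift_apply_of,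
      FreeGroup.lift_apply_of]
    have h3 := tr_vec_single B hB (fun j => B j i)
    change gt (sig B hB) * tr (sig B hB) (Multiplicative.ofAdd (vec B (Pi.single i 1))) *
      (gt (sig B hB))⁻¹ * (PX (fun j => tr (sig B hB) (Multiplicative.ofAdd
        (vec B (Pi.single j 1)))) (fun j => B j i))⁻¹ = 1
    rw [h3, conj_tr, sig_vec, mulVec_single, mul_inv_cancel]

/-- the homomorphism -/
noncomputable def F : PresentedGroup (hnnRel B) →* AG (sig B hB) :=
  PresentedGroup.toGroup (f := gx B hB) (rel_ok B hB)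

/-- the generators `x_i` -/
def X (i : Fin n) : PresentedGroup (hnnRel B) := PresentedGroup.of (some i)

/-- the generator `t` -/
def t : PresentedGroup (hnnRel B) := PresentedGroup.of none

theorem F_X (i : Fin n) : F B hB (X B i) =
    tr (sig B hB) (Multiplicative.ofAdd (vec B (Pi.single i 1))) :=
  PresentedGroup.toGroup.of (rel_ok B hB)

theorem F_t : F B hB (t B) = gt (sig B hB) := PresentedGroup.toGroup.of (rel_ok B hB)

theorem comm (i j : Fin n) : Commute (X B i) (X B j) := by
  have h : (PresentedGroup.mk (hnnRel B)) (FreeGroup.of (some i) * FreeGroup.of (some j) *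
      (FreeGroup.of (some i))⁻¹ * (FreeGroup.of (some j))⁻¹) = 1 :=
    PresentedGroup.one_of_mem (Or.inl ⟨i, j, rfl⟩)
  simp only [map_mul, map_inv] at h
  change X B i * X B j * (X B i)⁻¹ * (X B j)⁻¹ = 1 at h
  rw [mul_inv_eq_one, mul_inv_eq_iff_eq_mul] at h
  exact h

/-- the subgroup of the `x_i` -/
abbrev P (a : Fin n → ℤ) : PresentedGroup (hnnRel B) := PX (X B) a

theorem P_add (a b : Fin n → ℤ) : P B (a + b) = P B a * P B b := PX_add _ (comm B) a b

theorem F_P (a : Fin n → ℤ) : F B hB (P B a) = tr (sig B hB) (Multiplicative.ofAdd (vec B a)) := by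
  rw [map_PX]
  have h1 : (fun j => F B hB (X B j)) =
      fun j => tr (sig B hB) (Multiplicative.ofAdd (vec B (Pi.single j 1))) := funext (F_X B hB)
  rw [h1, tr_vec_single]

theorem rel (i : Fin n) : t B * X B i * (t B)⁻¹ = P B (fun j => B j i) := by
  have h : (PresentedGroup.mk (hnnRel B)) (FreeGroup.of none * FreeGroup.of (some i) *
      (FreeGroup.of none)⁻¹ * ((List.ofFn fun j => FreeGroup.of (some j) ^ B j i).prod)⁻¹) = 1 :=
    PresentedGroup.one_of_mem (Or.inr ⟨i, rfl⟩)
  have h2 := map_PX (PresentedGroup.mk (hnnRel B)) (fun j => FreeGroup.of (some j))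
    (fun j => B j i)
  unfold PX at h2
  simp only [map_mul, map_inv] at h
  rw [h2] at h
  exact mul_inv_eq_one.1 h

theorem conj (a : Fin n → ℤ) : t B * P B a * (t B)⁻¹ = P B (B.mulVec a) := by
  have h1 := map_PX (MulAut.conj (t B)).toMonoidHom (X B) a
  have h2 : (fun j => (MulAut.conj (t B)).toMonoidHom (X B j)) =
      fun j => PXh (X B) (comm B) (Multiplicative.ofAdd fun i => B i j) := by
    funext j
    exact rel B j
  rw [h2, PX_hom] at h1
  have h3 : ∑ j, a j • (fun i => B i j) = B.mulVec a := by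
    funext i
    simp [Matrix.mulVec, dotProduct, mul_comm]
  rw [h3] at h1
  exact h1

theorem conj_pow (j : ℕ) (a : Fin n → ℤ) : t B ^ j * P B a = P B ((B ^ j).mulVec a) * t B ^ j := by
  induction j with
  | zero => simp
  | succ j ih =>
    have h := conj B ((B ^ j).mulVec a)
    rw [mul_inv_eq_iff_eq_mul] at h
    rw [pow_succ' (t B), mul_assoc, ih, ← mul_assoc, h, mul_assoc, ← mul_assoc (P B _),
      mul_assoc (P B _), pow_succ' B, ← Matrix.mulVec_mulVec]

theorem conj_inv (a : Fin n → ℤ) : P B a * (t B)⁻¹ = (t B)⁻¹ * P B (B.mulVec a) := by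
  rw [← conj, ← mul_assoc, ← mul_assoc, inv_mul_cancel, one_mul]

theorem P_inv (a : Fin n → ℤ) : (P B a)⁻¹ = P B (-a) := by
  rw [inv_eq_iff_mul_eq_one, ← P_add, add_neg_cancel]
  exact PX_zero _

theorem P_single (i : Fin n) : P B (Pi.single i 1) = X B i := PX_single _ i

theorem nf (g : PresentedGroup (hnnRel B)) :
    ∃ (i j : ℕ) (a : Fin n → ℤ), g = ((t B)⁻¹) ^ i * P B a * t B ^ j := by
  have hg : g ∈ Subgroup.closure (Set.range (PresentedGroup.of (rels := hnnRel B))) := by
    rw [PresentedGroup.closure_range_of]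
    exact Subgroup.mem_top g
  induction hg using Subgroup.closure_induction_right with
  | one => exact ⟨0, 0, 0, by simp [P, PX_zero]⟩
  | mul_right x _ y hy ih =>
    obtain ⟨i, j, a, rfl⟩ := ih
    obtain ⟨b, rfl⟩ := hy
    rcases b with _ | b
    · refine ⟨i, j + 1, a, ?_⟩
      change _ * t B = _
      rw [mul_assoc, ← pow_succ]
    · refine ⟨i, j, a + (B ^ j).mulVec (Pi.single b 1), ?_⟩
      change _ * X B b = _
      rw [mul_assoc, ← P_single, conj_pow, P_add]
      group
  | mul_inv_cancel x _ y hy ih =>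
    obtain ⟨i, j, a, rfl⟩ := ih
    obtain ⟨b, rfl⟩ := hy
    rcases b with _ | b
    · change ∃ (i' j' : ℕ) (a' : Fin n → ℤ), _ * (t B)⁻¹ = _
      rcases j with _ | j
      · refine ⟨i + 1, 0, B.mulVec a, ?_⟩
        rw [pow_zero, mul_one, mul_one, mul_assoc, conj_inv, ← mul_assoc, ← pow_succ]
      · refine ⟨i, j, a, ?_⟩
        rw [pow_succ (t B), ← mul_assoc, mul_assoc _ (t B), mul_inv_cancel, mul_one]
    · refine ⟨i, j, a + (B ^ j).mulVec (-(Pi.single b 1)), ?_⟩
      change _ * (X B b)⁻¹ = _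
      rw [mul_assoc, ← P_single, P_inv, conj_pow, P_add]
      group

theorem nf' (g : PresentedGroup (hnnRel B)) :
    ∃ (i j : ℕ) (a : Fin n → ℤ), g = t B ^ (-(i : ℤ)) * P B a * t B ^ (j : ℤ) := by
  obtain ⟨i, j, a, h⟩ := nf B g
  refine ⟨i, j, a, ?_⟩
  rw [h, zpow_neg, zpow_natCast, zpow_natCast, inv_pow]

theorem F_nf (x y : ℤ) (a : Fin n → ℤ) : F B hB (t B ^ x * P B a * t B ^ y) =
    (((sig B hB) ^ x) (vec B a), x + y) := by
  rw [map_mul, map_mul, map_zpow, map_zpow, F_t, F_P, gt_zpow, gt_zpow]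
  apply Prod.ext
  · show ((0 : Lam B) + ((sig B hB) ^ x) (vec B a)) + ((sig B hB) ^ (x + 0)) 0 = _
    simp
  · show x + 0 + y = _
    ring

end model

theorem m34 : S_pres := by
  intro n B hB
  refine ⟨F B hB, fun g h => map_mul (F B hB) g h, ?_, ?_⟩
  · have hinj : Function.Injective (F B hB) := by
      rw [injective_iff_map_eq_one]
      intro g hg
      obtain ⟨i, j, a, rfl⟩ := nf' B g
      rw [F_nf, one_def] at hg
      have h1 : ((sig B hB) ^ (-(i : ℤ))) (vec B a) = 0 := congrArg Prod.fst hg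
      have h2 : -(i : ℤ) + j = 0 := congrArg Prod.snd hg
      have h3 : vec B a = 0 := by
        rw [← pow_pow_neg (σ := sig B hB) (i : ℤ) (vec B a), h1, map_zero]
      have h4 : a = 0 := vec_inj B (by rw [h3, map_zero])
      rw [h4, P, PX_zero, mul_one, ← zpow_add, h2, zpow_zero]
    exact hinj
  · rintro ⟨x, m⟩
    obtain ⟨d, hd⟩ := x.2
    choose a ha using hd
    refine ⟨t B ^ (-(d : ℤ)) * P B a * t B ^ (d + m), ?_⟩
    rw [F_nf]
    apply Prod.ext
    · show ((sig B hB) ^ (-(d : ℤ))) (vec B a) = x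
      have h1 : vec B a = ((sig B hB) ^ (d : ℤ)) x := by
        apply Subtype.ext
        rw [sig_pow]
        funext i
        exact (ha i).symm
      rw [h1, pow_neg_pow]
    · show -(d : ℤ) + (d + m) = m
      ring

end Pool.Agent.J6H74.CH34
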